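import Mathlib

set_option autoImplicit false

namespace Pool.Agent.Results.MP_2c8f22_co.Counterexample

open Polynomial

/-- `s` satisfies the linear recurrence with characteristic polynomial `f`. -/
def Gen (f : (ZMod 2)[X]) (s : ℕ → ZMod 2) : Prop :=
  ∀ i, ∑ j ∈ Finset.range (f.natDegree + 1), f.coeff j * s (i + j) = 0

/-- Doubly periodic `r1 × r2` binary arrays. -/
abbrev Arr (r1 r2 : ℕ) := ZMod r1 → ZMod r2 → ZMod 2

/-- The `n1 × n2` window at `(p, q)`. -/
def window {r1 r2 : ℕ} (n1 n2 : ℕ) (A : Arr r1 r2) (p : ZMod r1) (q : ZMod r2) :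
    Fin n1 → Fin n2 → ZMod 2 := fun a b => A (p + ((a : ℕ) : ZMod r1)) (q + ((b : ℕ) : ZMod r2))

/-- Cyclic shift of an array. -/
def shiftA {r1 r2 : ℕ} (p : ZMod r1) (q : ZMod r2) (A : Arr r1 r2) : Arr r1 r2 :=
  fun a b => A (p + a) (q + b)

/-- `(r1, r2; n1, n2)` pseudo-random array code. -/
def PRAC (r1 r2 n1 n2 : ℕ) (C : Set (Arr r1 r2)) : Prop :=
  r1 * r2 ∣ 2 ^ (n1 * n2) - 1 ∧
  (∀ W : Fin n1 → Fin n2 → ZMod 2, W ≠ 0 →
    ∃! x : Arr r1 r2 × ZMod r1 × ZMod r2, x.1 ∈ C ∧ window n1 n2 x.1 x.2.1 x.2.2 = W) ∧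
  (∀ A ∈ C, ∀ B : Arr r1 r2,
    ((B ∈ C ∧ B ≠ A) ∨ ∃ p q, (p, q) ≠ (0, 0) ∧ B = shiftA p q A) →
      ∃ D ∈ C, ∃ p q, A + B = shiftA p q D)

/-- `C` arises by folding one representative of each shift class of nonzero sequences generated
by `f` into an `r1 × r2` array. -/
def IsFolding (f : (ZMod 2)[X]) (r1 r2 : ℕ) (C : Set (Arr r1 r2)) : Prop :=
  ∃ R : Set (ℕ → ZMod 2), (∀ s ∈ R, Gen f s ∧ s ≠ 0) ∧
    (∀ s, Gen f s → s ≠ 0 → ∃! r, r ∈ R ∧ ∃ t, s = fun i => r (t + i)) ∧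
    C = {A | ∃ r ∈ R, ∀ i : ℕ, i < r1 * r2 → A (i : ZMod r1) (i : ZMod r2) = r i}

section gen
variable {V : Type} [AddCommGroup V]

def E (u : ℕ → V) (n m : ℕ) : V := ∑ j ∈ Finset.range n, if m.testBit j then u j else 0

lemma E_xor (h2 : ∀ v : V, v + v = 0) (u : ℕ → V) (n a b : ℕ) :
    E u n (a ^^^ b) = E u n a + E u n b := by
  unfold E
  rw [← Finset.sum_add_distrib]
  refine Finset.sum_congr rfl fun j _ => ?_
  rw [Nat.testBit_xor]
  cases a.testBit j <;> cases b.testBit j <;> simp [h2]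

def red (F d : ℕ) : ℕ → ℕ
  | 0 => 1
  | t + 1 => if (2 * red F d t).testBit d then (2 * red F d t) ^^^ F else 2 * red F d t

def xs (g : ℕ → ℕ) (m : ℕ) : ℕ → ℕ
  | 0 => 0
  | n + 1 => if m.testBit n then xs g m n ^^^ g n else xs g m n

lemma E_zero (u : ℕ → V) (n : ℕ) : E u n 0 = 0 := by simp [E]

lemma E_xs (h2 : ∀ v : V, v + v = 0) (u : ℕ → V) (d : ℕ) (g : ℕ → ℕ) (m n : ℕ) :
    E u d (xs g m n) = E (fun j => E u d (g j)) n m := by
  induction n with
  | zero => simp [xs, E]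
  | succ n ih =>
    rw [xs]
    conv_rhs => rw [E, Finset.sum_range_succ]
    split_ifs with h
    · rw [E_xor h2, ih]; rfl
    · rw [ih, add_zero]; rfl

lemma E_pow (u : ℕ → V) (n j : ℕ) (hj : j < n) : E u n (2 ^ j) = u j := by
  unfold E
  rw [Finset.sum_eq_single j]
  · simp
  · intro b _ hb
    rw [Nat.testBit_two_pow_of_ne (Ne.symm hb)]; simp
  · intro h; exact absurd (Finset.mem_range.2 hj) h

def Rec (F d : ℕ) (u : ℕ → V) : Prop := ∀ i, E (fun j => u (i + j)) (d + 1) F = 0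

lemma rec_red (h2 : ∀ v : V, v + v = 0) (F d : ℕ) (hd : 0 < d) (hF : F.testBit d = true)
    (u : ℕ → V) (hu : Rec F d u) (t : ℕ) :
    ∀ i, u (i + t) = E (fun j => u (i + j)) d (red F d t) := by
  induction t with
  | zero =>
    intro i
    have := E_pow (fun j => u (i + j)) d 0 hd
    exact this.symm
  | succ t ih =>
    intro i
    have h1 : u (i + (t + 1)) = E (fun j => u (i + j)) (d + 1) (2 * red F d t) := by
      rw [show i + (t + 1) = i + 1 + t by ring, ih (i + 1)]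
      unfold E
      rw [Finset.sum_range_succ']
      have h0 : (2 * red F d t).testBit 0 = false := by simp [Nat.testBit_zero]
      rw [h0]
      simp only [Bool.false_eq_true, if_false, add_zero]
      refine Finset.sum_congr rfl fun j _ => ?_
      have : (2 * red F d t).testBit (j + 1) = (red F d t).testBit j := by
        rw [Nat.testBit_succ]; congr 1; omega
      rw [this, show i + 1 + j = i + (j + 1) by ring]
    rw [h1, red]
    split_ifs with h
    · have h3 := E_xor h2 (fun j => u (i + j)) (d + 1) (2 * red F d t) F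
      rw [hu i, add_zero] at h3
      rw [← h3, E, Finset.sum_range_succ, Nat.testBit_xor, h, hF]
      simp [E]
    · rw [E, Finset.sum_range_succ, if_neg h]
      simp [E]

lemma per585 (h2 : ∀ v : V, v + v = 0) (F d : ℕ) (hd : 0 < d) (hF : F.testBit d = true)
    (h : red F d 585 = 1) (u : ℕ → V) (hu : Rec F d u) (i : ℕ) : u (i + 585) = u i := by
  rw [rec_red h2 F d hd hF u hu 585 i, h]
  exact E_pow (fun j => u (i + j)) d 0 hd

omit [AddCommGroup V] in
lemma per_mul (u : ℕ → V) (δ : ℕ) (h : ∀ i, u (i + δ) = u i) (k i : ℕ) : u (i + k * δ) = u i := by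
  induction k with
  | zero => simp
  | succ k ih => rw [show i + (k + 1) * δ = i + k * δ + δ by ring, h, ih]

omit [AddCommGroup V] in
lemma per_mod (u : ℕ → V) (δ : ℕ) (h : ∀ i, u (i + δ) = u i) (a i : ℕ) :
    u (i + a % δ) = u (i + a) := by
  rw [← per_mul u δ h (a / δ) (i + a % δ)]
  congr 1
  have := Nat.mod_add_div' a δ
  omega

def chk (x : ℕ) : Bool := x % 585 == 195 || x % 585 == 117 || x % 585 == 45

lemma arith0 : (List.range 585).all (fun δ => δ == 0 || (List.range 13).any fun j =>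
    chk (65 * j * δ) || chk (195 * j * δ) || chk (117 * j * δ) || chk (45 * j * δ)) = true := by
  decide +kernel

lemma arith (δ : ℕ) (h1 : δ < 585) (h0 : 0 < δ) : ∃ k,
    k * δ % 585 = 195 ∨ k * δ % 585 = 117 ∨ k * δ % 585 = 45 := by
  have h := List.all_eq_true.1 arith0 δ (List.mem_range.2 h1)
  simp only [Bool.or_eq_true, beq_iff_eq, List.any_eq_true, chk] at h
  rcases h with h | ⟨j, -, ((h | h) | h) | h⟩
  · omega
  · exact ⟨65 * j, by tauto⟩
  · exact ⟨195 * j, by tauto⟩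
  · exact ⟨117 * j, by tauto⟩
  · exact ⟨45 * j, by tauto⟩

structure Cert (F : ℕ) : Prop where
  top : F.testBit 12 = true
  per : red F 12 585 = 1
  c1 : ∃ m, xs (fun t => red F 12 (195 + t) ^^^ red F 12 t) m 12 = 1
  c2 : ∃ m, xs (fun t => red F 12 (117 + t) ^^^ red F 12 t) m 12 = 1
  c3 : ∃ m, xs (fun t => red F 12 (45 + t) ^^^ red F 12 t) m 12 = 1
  win : ∀ j < 12, ∃ m, xs (fun k => red F 12 (351 * (k / 4) + 235 * (k % 4))) m 12 = 2 ^ j

lemma noper (h2 : ∀ v : V, v + v = 0) (F : ℕ) (hC : Cert F) (u : ℕ → V) (hu : Rec F 12 u)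
    (δ : ℕ) (h0 : 0 < δ) (h1 : δ < 585) (h : ∀ i, u (i + δ) = u i) (i : ℕ) : u i = 0 := by
  have P := per585 h2 F 12 (by norm_num) hC.top hC.per u hu
  have R := rec_red h2 F 12 (by norm_num) hC.top u hu
  have key : ∀ e, (∀ i, u (i + e) = u i) →
      (∃ m, xs (fun t => red F 12 (e + t) ^^^ red F 12 t) m 12 = 1) → u i = 0 := by
    rintro e he ⟨m, hm⟩
    have a1 := E_xs h2 (fun j => u (i + j)) 12 (fun t => red F 12 (e + t) ^^^ red F 12 t) m 12
    rw [hm] at a1
    have a2 := E_pow (fun j => u (i + j)) 12 0 (by norm_num)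
    rw [pow_zero, a1] at a2
    rw [add_zero] at a2
    rw [← a2]
    refine Finset.sum_eq_zero fun j _ => ?_
    split_ifs
    · beta_reduce
      rw [E_xor h2, ← R, ← R, show i + (e + j) = i + j + e by ring, he, h2]
    · rfl
  obtain ⟨k, hk⟩ := arith δ h1 h0
  have Q : ∀ i, u (i + k * δ % 585) = u i := fun i => by rw [per_mod u 585 P, per_mul u δ h]
  rcases hk with hk | hk | hk <;> rw [hk] at Q
  · exact key _ Q hC.c1
  · exact key _ Q hC.c2
  · exact key _ Q hC.c3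

end gen

lemma z2 (v : ZMod 2) : v + v = 0 := CharTwo.add_self_eq_zero v

noncomputable def pol (d F : ℕ) : (ZMod 2)[X] := E (fun j => X ^ j) (d + 1) F

lemma pol_coeff (d F j : ℕ) :
    (pol d F).coeff j = if j < d + 1 ∧ F.testBit j = true then 1 else 0 := by
  unfold pol E
  rw [finsetSum_coeff]
  by_cases hj : j < d + 1
  · rw [Finset.sum_eq_single j]
    · by_cases h : F.testBit j = true <;> simp [h, hj]
    · intro b _ hb
      split_ifs
      · simp [coeff_X_pow, Ne.symm hb]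
      · simp
    · intro h; exact absurd (Finset.mem_range.2 hj) h
  · rw [if_neg (fun h => hj h.1)]
    refine Finset.sum_eq_zero fun b hb => ?_
    have : j ≠ b := by have := Finset.mem_range.1 hb; omega
    split_ifs
    · simp [coeff_X_pow, this]
    · simp

lemma pol_deg (d F : ℕ) (hF : F.testBit d = true) : (pol d F).natDegree = d := by
  apply natDegree_eq_of_le_of_coeff_ne_zero
  · rw [natDegree_le_iff_coeff_eq_zero]
    intro N hN
    rw [pol_coeff, if_neg (fun h => by omega)]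
  · rw [pol_coeff, if_pos ⟨by omega, hF⟩]; exact one_ne_zero

lemma pol_monic (d F : ℕ) (hF : F.testBit d = true) : (pol d F).Monic := by
  rw [Monic, leadingCoeff, pol_deg d F hF, pol_coeff, if_pos ⟨by omega, hF⟩]

lemma gen_iff (d F : ℕ) (hF : F.testBit d = true) (s : ℕ → ZMod 2) :
    Gen (pol d F) s ↔ Rec F d s := by
  unfold Gen Rec E
  rw [pol_deg d F hF]
  refine forall_congr' fun i => ?_
  rw [Finset.sum_congr rfl]
  intro j hj
  rw [pol_coeff]
  have := Finset.mem_range.1 hj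
  by_cases h : F.testBit j = true <;> simp [h, this]

lemma root_rec (d F : ℕ) (g : (ZMod 2)[X]) (hg : g ∣ pol d F) :
    Rec F d (fun t => AdjoinRoot.root g ^ t) := by
  intro i
  have h1 : AdjoinRoot.mk g (X ^ i * pol d F) = 0 := AdjoinRoot.mk_eq_zero.2 (hg.mul_left _)
  rw [← h1]
  unfold pol E
  rw [Finset.mul_sum, map_sum]
  refine Finset.sum_congr rfl fun j _ => ?_
  split_ifs
  · simp [pow_add]
  · simp

lemma ar2 (g : (ZMod 2)[X]) (v : AdjoinRoot g) : v + v = 0 := by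
  rw [← two_smul (ZMod 2) v, show (2 : ZMod 2) = 0 from rfl, zero_smul]

lemma not_dvd (F : ℕ) (hC : Cert F) (g : (ZMod 2)[X]) (hg : g ∣ pol 12 F) (hu : ¬ IsUnit g)
    (δ : ℕ) (h0 : 0 < δ) (h1 : δ < 585) : ¬ g ∣ X ^ (δ + 1) - X := by
  intro h
  have R := root_rec 12 F g hg
  have P := per585 (ar2 g) F 12 (by norm_num) hC.top hC.per _ R
  have h3 : AdjoinRoot.root g ^ (δ + 1) = AdjoinRoot.root g := by
    have := AdjoinRoot.mk_eq_zero.2 h
    simpa [sub_eq_zero] using this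
  have h4 := noper (ar2 g) F hC _ R δ h0 h1 (fun i => by
    rw [← P (i + δ), ← P i, show i + δ + 585 = (i + 584) + (δ + 1) by ring, pow_add, h3,
      ← pow_succ]) 0
  rw [pow_zero] at h4
  have : AdjoinRoot.mk g 1 = 0 := by simpa using h4
  exact hu (isUnit_of_dvd_one (AdjoinRoot.mk_eq_zero.1 this))

lemma irr (F : ℕ) (hC : Cert F) : Irreducible (pol 12 F) := by
  have hd := pol_deg 12 F hC.top
  rw [(pol_monic 12 F hC.top).irreducible_iff_lt_natDegree_lt (by
    intro h; rw [h] at hd; simp at hd), hd]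
  intro q _ hq hdvd
  rw [Finset.mem_Ioc] at hq
  obtain ⟨g, hg, hgq⟩ := exists_irreducible_of_natDegree_pos hq.1
  have hq0 : q ≠ 0 := by rintro rfl; simp at hq
  have h1 := natDegree_le_of_dvd hgq hq0
  have h2 := hg.natDegree_pos
  have h3 := (hg.natDegree_dvd_iff_dvd_X_pow_card_pow_sub_X (n := g.natDegree)).1 dvd_rfl
  rw [Nat.card_zmod] at h3
  have h4 : 2 ^ g.natDegree ≤ 2 ^ 6 := Nat.pow_le_pow_right (by norm_num) (by omega)
  have h5 : 2 ^ 1 ≤ 2 ^ g.natDegree := Nat.pow_le_pow_right (by norm_num) h2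
  refine not_dvd F hC g (hgq.trans hdvd) hg.not_isUnit (2 ^ g.natDegree - 1) (by omega) (by omega) ?_
  rwa [show 2 ^ g.natDegree - 1 + 1 = 2 ^ g.natDegree by omega]

lemma expo (F : ℕ) (hC : Cert F) :
    IsLeast {e : ℕ | 1 ≤ e ∧ pol 12 F ∣ X ^ e - 1} (5 * 117) := by
  constructor
  · refine ⟨by norm_num, ?_⟩
    have P := per585 (ar2 _) F 12 (by norm_num) hC.top hC.per _ (root_rec 12 F _ dvd_rfl) 0
    apply AdjoinRoot.mk_eq_zero.1
    simpa [sub_eq_zero] using P
  · rintro e ⟨h1, h2⟩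
    by_contra h
    refine not_dvd F hC _ dvd_rfl (irr F hC).not_isUnit e h1 (by omega) ?_
    rw [show (X ^ (e + 1) - X : (ZMod 2)[X]) = (X ^ e - 1) * X by ring]
    exact h2.mul_right _

lemma cert1 : Cert 6275 := by
  refine ⟨by decide, by decide +kernel, ⟨511, by decide +kernel⟩, ⟨3960, by decide +kernel⟩,
    ⟨2054, by decide +kernel⟩, fun j hj =>
      ⟨[1, 32, 1024, 2661, 797, 2388, 3618, 408, 643, 2839, 901, 1295].getD j 0, ?_⟩⟩
  revert j
  decide +kernel

lemma cert2 : Cert 6853 := by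
  refine ⟨by decide, by decide +kernel, ⟨2866, by decide +kernel⟩, ⟨3022, by decide +kernel⟩,
    ⟨1171, by decide +kernel⟩, fun j hj =>
      ⟨[1, 32, 1024, 1789, 990, 3642, 3457, 3867, 1752, 1918, 1011, 241].getD j 0, ?_⟩⟩
  revert j
  decide +kernel

lemma cert3 : red 24589775 24 585 = 1 ∧
    xs (fun k => red 24589775 24 (351 * (k / 8) + 235 * (k % 8))) 9908662 24 = 0 := by
  decide +kernel

lemma prod_eq : pol 12 6275 * pol 12 6853 = pol 24 24589775 := by
  have h2 : (2 : (ZMod 2)[X]) = 0 := CharTwo.two_eq_zero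
  have e1 : pol 12 6275 = 1 + X + X ^ 7 + X ^ 11 + X ^ 12 := by
    simp +decide [pol, E, Finset.sum_range_succ]
  have e2 : pol 12 6853 = 1 + X ^ 2 + X ^ 6 + X ^ 7 + X ^ 9 + X ^ 11 + X ^ 12 := by
    simp +decide [pol, E, Finset.sum_range_succ]
  have e3 : pol 24 24589775 = 1 + X + X ^ 2 + X ^ 3 + X ^ 6 + X ^ 7 + X ^ 8 + X ^ 10 + X ^ 12
      + X ^ 13 + X ^ 16 + X ^ 17 + X ^ 18 + X ^ 20 + X ^ 21 + X ^ 22 + X ^ 24 := by
    simp +decide [pol, E, Finset.sum_range_succ]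
  rw [e1, e2, e3]
  linear_combination (X ^ 7 + X ^ 9 + X ^ 11 + X ^ 12 + X ^ 13 + X ^ 14 + X ^ 18 + X ^ 19
    + X ^ 23) * h2

def Fo (A : Arr 5 117) (s : ℕ → ZMod 2) : Prop := ∀ i : ℕ, A (i : ZMod 5) (i : ZMod 117) = s i

def Per (s : ℕ → ZMod 2) : Prop := ∀ i, s (i + 585) = s i

lemma cast5 (a b : ℕ) (h : a % 5 = b % 5) : (a : ZMod 5) = b :=
  (ZMod.natCast_eq_natCast_iff' a b 5).2 h

lemma cast117 (a b : ℕ) (h : a % 117 = b % 117) : (a : ZMod 117) = b :=
  (ZMod.natCast_eq_natCast_iff' a b 117).2 h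

lemma crt (p : ZMod 5) (q : ZMod 117) : ∃ t : ℕ, t < 585 ∧ (t : ZMod 5) = p ∧
    (t : ZMod 117) = q := by
  refine ⟨(351 * p.val + 235 * q.val) % 585, Nat.mod_lt _ (by norm_num), ?_, ?_⟩
  · rw [cast5 _ p.val (by omega), ZMod.natCast_zmod_val]
  · rw [cast117 _ q.val (by omega), ZMod.natCast_zmod_val]

lemma per_congr {s : ℕ → ZMod 2} (h : Per s) (a b : ℕ) (hab : a % 585 = b % 585) : s a = s b := by
  have h1 := per_mod s 585 h a 0
  have h2 := per_mod s 585 h b 0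
  simp only [zero_add] at h1 h2
  rw [← h1, ← h2, hab]

lemma fo_of {A : Arr 5 117} {s : ℕ → ZMod 2} (h : Per s)
    (hA : ∀ i : ℕ, i < 5 * 117 → A (i : ZMod 5) (i : ZMod 117) = s i) : Fo A s := by
  intro i
  rw [cast5 i (i % 585) (by omega), cast117 i (i % 585) (by omega), hA _ (by omega)]
  exact per_congr h _ _ (by omega)

lemma fo_ext {A B : Arr 5 117} {s : ℕ → ZMod 2} (hA : Fo A s) (hB : Fo B s) : A = B := by
  funext p q
  obtain ⟨t, -, rfl, rfl⟩ := crt p q
  rw [hA, hB]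

lemma fo_exists {s : ℕ → ZMod 2} (h : Per s) : ∃ A, Fo A s := by
  refine ⟨fun p q => s (351 * p.val + 235 * q.val), fun i => ?_⟩
  simp only [ZMod.val_natCast]
  exact per_congr h _ _ (by omega)

lemma fo_shift {A : Arr 5 117} {s : ℕ → ZMod 2} (hA : Fo A s) (t : ℕ) :
    Fo (shiftA (t : ZMod 5) (t : ZMod 117) A) (fun i => s (t + i)) := by
  intro i
  have := hA (t + i)
  push_cast at this
  exact this

lemma window_eq {A : Arr 5 117} {s : ℕ → ZMod 2} (hA : Fo A s) (n1 n2 t : ℕ) (a : Fin n1)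
    (b : Fin n2) : window n1 n2 A (t : ZMod 5) (t : ZMod 117) a b =
      s (t + (351 * (a : ℕ) + 235 * (b : ℕ))) := by
  rw [← hA, cast5 (t + (351 * (a : ℕ) + 235 * (b : ℕ))) (t + a) (by omega), 
    cast117 (t + (351 * (a : ℕ) + 235 * (b : ℕ))) (t + b) (by omega)]
  push_cast
  rfl

lemma rec_shift {F d : ℕ} {s : ℕ → ZMod 2} (h : Rec F d s) (t : ℕ) :
    Rec F d (fun i => s (t + i)) := by
  intro i
  have := h (t + i)
  simpa only [add_assoc] using this

lemma rec_add {F d : ℕ} {s s' : ℕ → ZMod 2} (h : Rec F d s) (h' : Rec F d s') :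
    Rec F d (s + s') := by
  intro i
  have h1 := h i
  have h2 := h' i
  unfold E at *
  rw [← add_zero (0 : ZMod 2)]
  conv_rhs => rw [← h1]; congr; rfl; rw [h1, ← h2]
  rw [← Finset.sum_add_distrib]
  refine Finset.sum_congr rfl fun j _ => ?_
  split_ifs <;> simp

lemma add_eq_zero2 {s s' : ℕ → ZMod 2} (h : s + s' = 0) : s = s' := by
  funext i
  have h1 : s i + s' i = 0 := congrFun h i
  have h2 := z2 (s' i)
  linear_combination h1 - h2

lemma win_inj (F : ℕ) (hC : Cert F) {s s' : ℕ → ZMod 2} (h : Rec F 12 s) (h' : Rec F 12 s')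
    (hw : ∀ (a : Fin 3) (b : Fin 4), s (351 * (a : ℕ) + 235 * (b : ℕ)) =
      s' (351 * (a : ℕ) + 235 * (b : ℕ))) : s = s' := by
  apply add_eq_zero2
  have hu := rec_add h h'
  have R := rec_red z2 F 12 (by norm_num) hC.top _ hu
  have init : ∀ j < 12, (s + s') (0 + j) = 0 := by
    intro j hj
    obtain ⟨m, hm⟩ := hC.win j hj
    have a1 := E_xs z2 (fun j => (s + s') (0 + j)) 12
      (fun k => red F 12 (351 * (k / 4) + 235 * (k % 4))) m 12
    rw [hm, E_pow _ _ _ hj] at a1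
    rw [a1]
    refine Finset.sum_eq_zero fun k hk => ?_
    have hk' := Finset.mem_range.1 hk
    split_ifs
    · beta_reduce
      rw [← R, zero_add, Pi.add_apply, hw ⟨k / 4, by omega⟩ ⟨k % 4, by omega⟩, z2]
    · rfl
  funext t
  have := R t 0
  rw [zero_add] at this
  rw [this]
  refine Finset.sum_eq_zero fun j hj => ?_
  split_ifs
  · exact init j (Finset.mem_range.1 hj)
  · rfl

lemma win_surj (F : ℕ) (hC : Cert F) (W : Fin 3 → Fin 4 → ZMod 2) : ∃ s, Rec F 12 s ∧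
    ∀ (a : Fin 3) (b : Fin 4), s (351 * (a : ℕ) + 235 * (b : ℕ)) = W a b := by
  let L : LinearRecurrence (ZMod 2) := ⟨12, fun j => if F.testBit j then 1 else 0⟩
  have hR : ∀ v, Rec F 12 (L.mkSol v) := by
    intro v i
    have h1 := L.is_sol_mkSol v i
    unfold E
    rw [Finset.sum_range_succ, if_pos hC.top]
    have h2 : L.mkSol v (i + 12) = ∑ j ∈ Finset.range 12,
        if F.testBit j then L.mkSol v (i + j) else 0 := by
      rw [Finset.sum_range]
      refine h1.trans (Finset.sum_congr rfl fun j _ => ?_)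
      simp only [L]
      split_ifs <;> simp
    beta_reduce
    rw [h2, z2]
  let Φ : (Fin 12 → ZMod 2) → Fin 3 → Fin 4 → ZMod 2 :=
    fun v a b => L.mkSol v (351 * (a : ℕ) + 235 * (b : ℕ))
  have hinj : Function.Injective Φ := by
    intro v w h
    exact L.mkSol_injective (win_inj F hC (hR v) (hR w) fun a b => congrFun (congrFun h a) b)
  have hb := (Fintype.bijective_iff_injective_and_card Φ).2 ⟨hinj, by simp⟩
  obtain ⟨v, hv⟩ := hb.2 W
  exact ⟨L.mkSol v, hR v, fun a b => congrFun (congrFun hv a) b⟩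

lemma shift_inj (F : ℕ) (hC : Cert F) {r : ℕ → ZMod 2} (h : Rec F 12 r) (h0 : r ≠ 0)
    (t t' : ℕ) (ht : t < t') (ht' : t' < 585) : (fun i => r (t + i)) ≠ fun i => r (t' + i) := by
  intro he
  have P : Per r := per585 z2 F 12 (by norm_num) hC.top hC.per r h
  apply h0
  funext i
  refine noper z2 F hC r h (t' - t) (by omega) (by omega) (fun i => ?_) i
  have := congrFun he (i + 585 - t)
  beta_reduce at this
  rw [per_congr P (i + (t' - t)) (t' + (i + 585 - t)) (by omega), ← this]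
  exact per_congr P _ _ (by omega)

lemma prac (F : ℕ) (hC : Cert F) (C : Set (Arr 5 117)) (hF : IsFolding (pol 12 F) 5 117 C) :
    PRAC 5 117 3 4 C := by
  obtain ⟨R, hR, hU, rfl⟩ := hF
  simp only [gen_iff 12 F hC.top] at hR hU
  have P : ∀ s, Rec F 12 s → Per s := fun s h =>
    per585 z2 F 12 (by norm_num) hC.top hC.per s h
  have mem : ∀ A : Arr 5 117, (∃ r ∈ R, ∀ i : ℕ, i < 5 * 117 → A (i : ZMod 5) (i : ZMod 117) = r i) ↔
      ∃ r ∈ R, Fo A r := fun A =>
    ⟨fun ⟨r, hr, h⟩ => ⟨r, hr, fo_of (P r (hR r hr).1) h⟩,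
      fun ⟨r, hr, h⟩ => ⟨r, hr, fun i _ => h i⟩⟩
  simp only [mem]
  have find : ∀ s, Rec F 12 s → s ≠ 0 → ∃ D : Arr 5 117, (∃ r ∈ R, Fo D r) ∧ ∃ t : ℕ,
      Fo (shiftA (t : ZMod 5) (t : ZMod 117) D) s := by
    intro s hs h0
    obtain ⟨r, ⟨hr, t, rfl⟩, -⟩ := hU s hs h0
    obtain ⟨D, hD⟩ := fo_exists (P r (hR r hr).1)
    exact ⟨D, ⟨r, hr, hD⟩, t, fo_shift hD t⟩
  refine ⟨by norm_num, ?_, ?_⟩
  · intro W hW
    obtain ⟨s, hs, hw⟩ := win_surj F hC W
    have h0 : s ≠ 0 := by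
      rintro rfl
      exact hW (funext fun a => funext fun b => (hw a b).symm)
    have char : ∀ (A : Arr 5 117) (r : ℕ → ZMod 2) (t : ℕ), r ∈ R → Fo A r →
        window 3 4 A (t : ZMod 5) (t : ZMod 117) = W → s = fun i => r (t + i) := by
      intro A r t hr hA h
      refine win_inj F hC hs (rec_shift (hR r hr).1 t) fun a b => ?_
      rw [hw, ← h, window_eq hA]
    obtain ⟨r, ⟨hr, t, hst⟩, hun⟩ := hU s hs h0
    obtain ⟨D, hD⟩ := fo_exists (P r (hR r hr).1)
    refine ⟨(D, (t : ZMod 5), (t : ZMod 117)), ⟨⟨r, hr, hD⟩, ?_⟩, ?_⟩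
    · funext a b
      rw [window_eq hD, ← hw, hst]
    · rintro ⟨A, p, q⟩ ⟨⟨r', hr', hA⟩, h⟩
      obtain ⟨t', ht', rfl, rfl⟩ := crt p q
      have e1 := char A r' t' hr' hA h
      have e2 : r' = r := hun r' ⟨hr', t', e1⟩
      subst e2
      have e3 : (fun i => r' (t % 585 + i)) = fun i => r' (t' + i) := by
        rw [← e1, hst]
        funext i
        exact per_congr (P r' (hR r' hr).1) _ _ (by omega)
      have e4 : t % 585 = t' := by
        by_contra hne
        rcases Nat.lt_or_gt_of_ne hne with c | c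
        · exact shift_inj F hC (hR r' hr).1 (hR r' hr).2 _ _ c ht' e3
        · exact shift_inj F hC (hR r' hr).1 (hR r' hr).2 _ _ c (by omega) e3.symm
      rw [fo_ext (A := A) hA hD, cast5 t' t (by omega), cast117 t' t (by omega)]
  · rintro A ⟨r, hr, hA⟩ B hB
    obtain ⟨s, hs, hBs, hne⟩ : ∃ s, Rec F 12 s ∧ Fo B s ∧ r ≠ s := by
      rcases hB with ⟨⟨r', hr', hB⟩, hne⟩ | ⟨p, q, hpq, rfl⟩
      · exact ⟨r', (hR r' hr').1, hB, fun e => hne (fo_ext hB (e ▸ hA))⟩
      · obtain ⟨t, ht, rfl, rfl⟩ := crt p q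
        refine ⟨_, rec_shift (hR r hr).1 t, fo_shift hA t, ?_⟩
        have t0 : 0 < t := by
          rcases Nat.eq_zero_or_pos t with rfl | h
          · exact absurd (by simp) hpq
          · exact h
        have := shift_inj F hC (hR r hr).1 (hR r hr).2 0 t t0 ht
        simpa only [zero_add] using this
    obtain ⟨D, hD, t, ht⟩ := find (r + s) (rec_add (hR r hr).1 hs) (fun e => hne (add_eq_zero2 e))
    refine ⟨D, hD, _, _, fo_ext (s := r + s) (fun i => ?_) ht⟩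
    simp only [Pi.add_apply]
    rw [hA, hBs]

lemma not_prac (C : Set (Arr 5 117)) (hF : IsFolding (pol 24 24589775) 5 117 C) :
    ¬ PRAC 5 117 3 (2 * 4) C := by
  obtain ⟨R, hR, -, rfl⟩ := hF
  have top : Nat.testBit 24589775 24 = true := by decide
  simp only [gen_iff 24 _ top] at hR
  rintro ⟨-, h, -⟩
  obtain ⟨⟨A, p, q⟩, ⟨⟨r, hr, hA⟩, hw⟩, -⟩ :=
    h (fun a b => if (a : ℕ) = 0 ∧ (b : ℕ) = 1 then 1 else 0) (by
      intro e
      have := congrFun (congrFun e 0) 1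
      simp at this)
  have hA' := fo_of (per585 z2 _ 24 (by norm_num) top cert3.1 r (hR r hr).1) hA
  obtain ⟨t, -, rfl, rfl⟩ := crt p q
  have R := rec_red z2 _ 24 (by norm_num) top r (hR r hr).1
  have a1 := E_xs z2 (fun j => r (t + j)) 24
    (fun k => red 24589775 24 (351 * (k / 8) + 235 * (k % 8))) 9908662 24
  rw [cert3.2, E_zero] at a1
  have a2 : E (fun k => E (fun j => r (t + j)) 24
      (red 24589775 24 (351 * (k / 8) + 235 * (k % 8)))) 24 9908662 =
      E (fun k => if k / 8 = 0 ∧ k % 8 = 1 then (1 : ZMod 2) else 0) 24 9908662 := by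
    unfold E
    refine Finset.sum_congr rfl fun k hk => ?_
    have hk' := Finset.mem_range.1 hk
    have b1 := window_eq hA' 3 (2 * 4) t ⟨k / 8, by omega⟩ ⟨k % 8, by omega⟩
    have b2 := congrFun (congrFun hw ⟨k / 8, by omega⟩) ⟨k % 8, by omega⟩
    have b3 := R (351 * (k / 8) + 235 * (k % 8)) t
    unfold E at b3
    beta_reduce
    rw [← b3, ← b1]
    exact congrArg (fun x => if Nat.testBit 9908662 k then x else 0) b2
  rw [a2] at a1
  revert a1
  decide

lemma exists_folding (f : (ZMod 2)[X]) (h : ∀ s, Gen f s → Per s) :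
    ∃ C, IsFolding f 5 117 C := by
  classical
  let S : Setoid {s // Gen f s ∧ s ≠ 0} :=
    ⟨fun s r => ∃ t, s.1 = fun i => r.1 (t + i), ⟨fun s => ⟨0, by simp⟩, by
      rintro s r ⟨t, ht⟩
      refine ⟨584 * t, funext fun i => ?_⟩
      rw [ht]
      exact per_congr (h _ r.2.1) _ _ (by omega), by
      rintro s r u ⟨t, ht⟩ ⟨t', ht'⟩
      exact ⟨t' + t, by rw [ht, ht']; simp only [add_assoc]⟩⟩⟩
  refine ⟨_, Set.range fun c : Quotient S => (Quotient.out c).1, ?_, ?_, rfl⟩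
  · rintro s ⟨c, rfl⟩
    exact (Quotient.out c).2
  · intro s hs h0
    refine ⟨(Quotient.out (Quotient.mk S ⟨s, hs, h0⟩)).1, ⟨⟨_, rfl⟩, ?_⟩, ?_⟩
    · exact S.symm (Quotient.mk_out (s := S) ⟨s, hs, h0⟩)
    · rintro r ⟨⟨c, rfl⟩, ht⟩
      have : Quotient.mk S ⟨s, hs, h0⟩ = c := by
        rw [← Quotient.out_eq c]
        exact Quotient.sound (s := S) ht
      rw [this]

/-- A counterexample with `(r1, r2; n1, n2) = (5, 117; 3, 4)` and `k = 2`. -/
theorem result : ∃ (r1 r2 n1 n2 : ℕ) (f1 f2 : (ZMod 2)[X]),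
    Nat.Coprime r1 r2 ∧ n1 < r1 ∧ r1 < 2 * n1 ∧ f1 ≠ f2 ∧
    (∀ f ∈ ({f1, f2} : Set (ZMod 2)[X]), Irreducible f ∧ f.natDegree = n1 * n2 ∧
      IsLeast {e : ℕ | 1 ≤ e ∧ f ∣ X ^ e - 1} (r1 * r2) ∧
      (∃ C, IsFolding f r1 r2 C) ∧ ∀ C, IsFolding f r1 r2 C → PRAC r1 r2 n1 n2 C) ∧
    (∃ C, IsFolding (f1 * f2) r1 r2 C) ∧
    ∀ C, IsFolding (f1 * f2) r1 r2 C → ¬ PRAC r1 r2 n1 (2 * n2) C := by
  have gen : ∀ F, Cert F → Irreducible (pol 12 F) ∧ (pol 12 F).natDegree = 3 * 4 ∧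
      IsLeast {e : ℕ | 1 ≤ e ∧ pol 12 F ∣ X ^ e - 1} (5 * 117) ∧
      (∃ C, IsFolding (pol 12 F) 5 117 C) ∧
      ∀ C, IsFolding (pol 12 F) 5 117 C → PRAC 5 117 3 4 C := fun F hC =>
    ⟨irr F hC, pol_deg 12 F hC.top, expo F hC, exists_folding _ fun s hs =>
      per585 z2 F 12 (by norm_num) hC.top hC.per s ((gen_iff 12 F hC.top s).1 hs), prac F hC⟩
  refine ⟨5, 117, 3, 4, pol 12 6275, pol 12 6853, by norm_num, by norm_num, by norm_num, ?_, ?_,
    ?_, ?_⟩
  · intro h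
    have := congrArg (fun f => coeff f 1) h
    simp only [pol_coeff] at this
    revert this
    decide
  · rintro f (rfl | rfl)
    · exact gen _ cert1
    · exact gen _ cert2
  · rw [prod_eq]
    have top : Nat.testBit 24589775 24 = true := by decide
    exact exists_folding _ fun s hs =>
      per585 z2 _ 24 (by norm_num) top cert3.1 s ((gen_iff 24 _ top s).1 hs)
  · rw [prod_eq]
    exact not_prac

end Pool.Agent.Results.MP_2c8f22_co.Counterexample
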